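import Mathlib

namespace Pool.Agent.Results.MP_92d133_al.HeightNotInherited

section defs
variable {S : Type} [Semigroup S]

/-- The principal two-sided ideal `S¹ a S¹`. -/
def principal (a : S) : Set S :=
  {x | ∃ p q : WithOne S, (x : WithOne S) = p * (a : WithOne S) * q}

/-- The set `S`, carrying the preorder `≤_𝒥`. -/
def WithJ (S : Type) : Type := S

instance (S : Type) [Semigroup S] : Preorder (WithJ S) where
  le a b := principal (show S from a) ⊆ principal (show S from b)
  le_refl a := subset_refl _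
  le_trans a b c h1 h2 := Set.Subset.trans h1 h2

/-- The poset `S / 𝒥` of `𝒥`-classes. -/
abbrev JClasses (S : Type) [Semigroup S] : Type := Antisymmetrization (WithJ S) (· ≤ ·)

/-- The `𝒥`-height: the supremum of the cardinalities of chains of `𝒥`-classes. -/
noncomputable def jHeight (S : Type) [Semigroup S] : ℕ∞ :=
  ⨆ C : {C : Set (JClasses S) // IsChain (· ≤ ·) C}, C.1.encard

/-- `B` is a bi-ideal of `S`. -/
def IsBiIdeal (B : Subsemigroup S) : Prop :=
  (B : Set S).Nonempty ∧ ∀ x ∈ B, ∀ s : S, ∀ y ∈ B, x * s * y ∈ B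

/-- The `𝒥`-class of an element. -/
def cls (a : S) : JClasses S := toAntisymmetrization (α := WithJ S) (· ≤ ·) a

theorem cls_le (a b : S) : cls a ≤ cls b ↔ principal a ⊆ principal b := Iff.rfl

theorem mem_self (a : S) : a ∈ principal a := ⟨1, 1, by simp⟩

theorem principal_mono {a b : S} (h : a ∈ principal b) : principal a ⊆ principal b := by
  rintro x ⟨p, q, hx⟩
  obtain ⟨p', q', h⟩ := h
  exact ⟨p * p', q' * q, by rw [hx, h]; simp only [mul_assoc]⟩

theorem cls_le' (a b : S) : cls a ≤ cls b ↔ a ∈ principal b :=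
  ⟨fun h => (cls_le a b).mp h (mem_self a), fun h => (cls_le a b).mpr (principal_mono h)⟩

end defs

/-! ### The example -/

inductive T : Type
  | z (i : ℤ) : T
  | d (k l : ℕ) : T
  | j (i : ℤ) (n : ℕ) : T
  | o : T

def T.mul : T → T → T
  | T.z i, T.z i' => T.z (i + i')
  | T.z i, T.j i' n => T.j (i + i') n
  | T.d k l, T.d m n => T.d (k + (m - l)) (n + (l - m))
  | T.j i n, T.d k l => T.j (i + ((k - n : ℕ) : ℤ)) (l + (n - k))
  | _, _ => T.o

instance : Semigroup T where
  mul := T.mul
  mul_assoc x y w := by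
    show T.mul (T.mul x y) w = T.mul x (T.mul y w)
    cases x <;> cases y <;> cases w <;> simp only [T.mul]
    · congr 1; ring
    · congr 1; ring
    · congr 1; ring
    · congr 1 <;> omega
    · congr 1 <;> omega

theorem mul_def (x y : T) : x * y = T.mul x y := rfl

/-- The bi-ideal. -/
def B : Subsemigroup T where
  carrier := {x | x = T.o ∨ (∃ i n, x = T.j i n) ∨ ∃ k l, x = T.d (k + 1) l}
  mul_mem' := by
    rintro x y (rfl | ⟨i, n, rfl⟩ | ⟨k, l, rfl⟩) (rfl | ⟨i', n', rfl⟩ | ⟨k', l', rfl⟩)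
    · left; rfl
    · left; rfl
    · left; rfl
    · left; rfl
    · left; rfl
    · right; left; exact ⟨_, _, rfl⟩
    · left; rfl
    · left; rfl
    · right; right
      refine ⟨k + (k' + 1 - l), l' + (l - (k' + 1)), ?_⟩
      show T.d _ _ = _
      congr 1
      omega

theorem mem_B (x : T) : x ∈ B ↔ x = T.o ∨ (∃ i n, x = T.j i n) ∨ ∃ k l, x = T.d (k + 1) l :=
  Iff.rfl

theorem biIdeal : IsBiIdeal B := by
  refine ⟨⟨T.o, Or.inl rfl⟩, ?_⟩
  rintro x hx s y hy
  rcases hx with rfl | ⟨i, n, rfl⟩ | ⟨k, l, rfl⟩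
  · left
    cases s <;> cases y <;> rfl
  · cases s with
    | d k l => exact B.mul_mem (Or.inr (Or.inl ⟨_, _, rfl⟩)) hy
    | z i => left; cases y <;> rfl
    | j i n => left; cases y <;> rfl
    | o => left; cases y <;> rfl
  · cases s with
    | d k' l' =>
      refine B.mul_mem (Or.inr (Or.inr ⟨k + (k' - l), l' + (l - k'), ?_⟩)) hy
      show T.d _ _ = _
      congr 1
      omega
    | z i => left; cases y <;> rfl
    | j i n => left; cases y <;> rfl
    | o => left; cases y <;> rfl

/-! ### The height of the big semigroup -/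

theorem mem_principal_two (x p a q : T) (h : x = p * a * q) : x ∈ principal a :=
  ⟨(p : WithOne T), (q : WithOne T), by rw [← WithOne.coe_mul, ← WithOne.coe_mul, h]⟩

theorem mem_principal_right (x a q : T) (h : x = a * q) : x ∈ principal a :=
  ⟨1, (q : WithOne T), by rw [one_mul, ← WithOne.coe_mul, h]⟩

theorem cls_z (i : ℤ) : cls (T.z i) = cls (T.z 0) := by
  apply le_antisymm
  · rw [cls_le']
    apply mem_principal_right _ _ (T.z i)
    show T.z i = T.z (0 + i)
    congr 1; ring
  · rw [cls_le']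
    apply mem_principal_right _ _ (T.z (-i))
    show T.z 0 = T.z (i + -i)
    congr 1; ring

theorem cls_d (k l : ℕ) : cls (T.d k l) = cls (T.d 0 0) := by
  apply le_antisymm
  · rw [cls_le']
    apply mem_principal_right _ _ (T.d k l)
    show T.d k l = T.d _ _
    congr 1 <;> omega
  · rw [cls_le']
    apply mem_principal_two _ (T.d 0 k) _ (T.d l 0)
    show T.d 0 0 = T.mul (T.mul (T.d 0 k) (T.d k l)) (T.d l 0)
    simp only [T.mul]
    congr 1 <;> omega

theorem cls_j (i : ℤ) (n : ℕ) : cls (T.j i n) = cls (T.j 0 0) := by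
  apply le_antisymm
  · rw [cls_le']
    apply mem_principal_two _ (T.z i) _ (T.d 0 n)
    show T.j i n = T.mul (T.mul (T.z i) (T.j 0 0)) (T.d 0 n)
    simp only [T.mul]
    congr 1
    simp
  · rw [cls_le']
    apply mem_principal_two _ (T.z (-i)) _ (T.d n 0)
    show T.j 0 0 = T.mul (T.mul (T.z (-i)) (T.j i n)) (T.d n 0)
    simp only [T.mul]
    congr 1
    · simp
    · omega

theorem height_T : jHeight T < ⊤ := by
  have huniv : (Set.univ : Set (JClasses T)) ⊆
      ({cls (T.z 0), cls (T.d 0 0), cls (T.j 0 0), cls T.o} : Set (JClasses T)) := by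
    intro x _
    have key : ∀ a : T, cls a ∈
        ({cls (T.z 0), cls (T.d 0 0), cls (T.j 0 0), cls T.o} : Set (JClasses T)) := by
      intro a
      rcases a with i | ⟨k, l⟩ | ⟨i, n⟩ | _
      · exact Or.inl (cls_z i)
      · exact Or.inr (Or.inl (cls_d k l))
      · exact Or.inr (Or.inr (Or.inl (cls_j i n)))
      · exact Or.inr (Or.inr (Or.inr rfl))
    exact Quotient.inductionOn x key
  have hfin : (Set.univ : Set (JClasses T)).Finite := (Set.toFinite _).subset huniv
  have hle : jHeight T ≤ (Set.univ : Set (JClasses T)).encard :=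
    iSup_le (fun C => Set.encard_le_encard (Set.subset_univ _))
  exact lt_of_le_of_lt hle (Set.encard_lt_top_iff.mpr hfin)

/-! ### The height of the bi-ideal -/

def e (i : ℕ) : B := ⟨T.j (i : ℤ) 0, Or.inr (Or.inl ⟨_, _, rfl⟩)⟩

theorem e_step (i : ℕ) : e (i + 1) ∈ principal (e i) := by
  let q : B := ⟨T.d 1 0, Or.inr (Or.inr ⟨0, 0, rfl⟩)⟩
  refine ⟨1, (q : WithOne B), ?_⟩
  rw [one_mul, ← WithOne.coe_mul]
  have h : e (i + 1) = e i * q := by
    apply Subtype.ext
    show T.j ((i + 1 : ℕ) : ℤ) 0 = T.mul (T.j (i : ℤ) 0) (T.d 1 0)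
    rfl
  rw [h]

theorem right_mono (a q : B) (i i' : ℤ) (n n' : ℕ) (ha : (a : T) = T.j i n)
    (h : ((a * q : B) : T) = T.j i' n') : i ≤ i' := by
  have h1 : (a : T) * (q : T) = T.j i' n' := h
  rw [ha, mul_def] at h1
  rcases q.2 with hq | ⟨k, l, hq⟩ | ⟨k, l, hq⟩
  · rw [hq] at h1
    simp [T.mul] at h1
  · rw [hq] at h1
    simp [T.mul] at h1
  · rw [hq] at h1
    simp only [T.mul, T.j.injEq] at h1
    omega

theorem left_none (p a : B) (i i' : ℤ) (n n' : ℕ) (ha : (a : T) = T.j i n) :
    ((p * a : B) : T) ≠ T.j i' n' := by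
  intro h
  have h1 : (p : T) * (a : T) = T.j i' n' := h
  rw [ha, mul_def] at h1
  rcases p.2 with hp | ⟨k, l, hp⟩ | ⟨k, l, hp⟩ <;>
  · rw [hp] at h1
    simp [T.mul] at h1

theorem principal_B (i i' : ℤ) (n n' : ℕ) (a x : B) (ha : (a : T) = T.j i n)
    (hx : (x : T) = T.j i' n') (h : x ∈ principal a) : i ≤ i' := by
  obtain ⟨p, q, h⟩ := h
  revert h
  refine WithOne.cases_on p ?_ ?_
  · rw [one_mul]
    refine WithOne.cases_on q ?_ ?_
    · intro h
      rw [mul_one] at h
      have h1 := WithOne.coe_inj.mp h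
      rw [h1, ha] at hx
      simp only [T.j.injEq] at hx
      omega
    · intro q h
      rw [← WithOne.coe_mul] at h
      have h1 := WithOne.coe_inj.mp h
      rw [h1] at hx
      exact right_mono a q i i' n n' ha hx
  · intro p
    refine WithOne.cases_on q ?_ ?_
    · intro h
      rw [mul_one, ← WithOne.coe_mul] at h
      have h1 := WithOne.coe_inj.mp h
      rw [h1] at hx
      exact absurd hx (left_none p a i i' n n' ha)
    · intro q h
      rw [← WithOne.coe_mul, ← WithOne.coe_mul] at h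
      have h1 := WithOne.coe_inj.mp h
      rw [h1, mul_assoc] at hx
      exfalso
      have h2 : (p : T) * ((a * q : B) : T) = T.j i' n' := hx
      rcases (a * q).2 with h3 | ⟨k, l, h3⟩ | ⟨k, l, h3⟩
      · rw [h3, mul_def] at h2
        rcases p.2 with hp | ⟨k, l, hp⟩ | ⟨k, l, hp⟩ <;>
        · rw [hp] at h2
          simp [T.mul] at h2
      · rw [h3, mul_def] at h2
        rcases p.2 with hp | ⟨k, l, hp⟩ | ⟨k, l, hp⟩ <;>
        · rw [hp] at h2
          simp [T.mul] at h2
      · -- `a * q` is not of the form `d k l`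
        have h4 : (a : T) * (q : T) = T.d (k + 1) l := h3
        rw [ha, mul_def] at h4
        rcases q.2 with hq | ⟨k', l', hq⟩ | ⟨k', l', hq⟩ <;>
        · rw [hq] at h4
          simp [T.mul] at h4

theorem cls_e_anti : StrictAnti (fun i : ℕ => cls (e i)) := by
  apply strictAnti_nat_of_succ_lt
  intro i
  refine lt_of_le_of_ne ((cls_le' _ _).mpr (e_step i)) ?_
  intro h
  have h1 : e i ∈ principal (e (i + 1)) := (cls_le' _ _).mp h.ge
  have h2 := principal_B _ _ _ _ (e (i + 1)) (e i) rfl rfl h1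
  push_cast at h2
  omega

theorem height_B : jHeight B = ⊤ := by
  rw [eq_top_iff]
  have hchain : IsChain (· ≤ ·) (Set.range (fun i : ℕ => cls (e i))) := by
    rintro _ ⟨i, rfl⟩ _ ⟨k, rfl⟩ _
    rcases le_total i k with h | h
    · right; exact cls_e_anti.antitone h
    · left; exact cls_e_anti.antitone h
  have hinf : (Set.range (fun i : ℕ => cls (e i))).encard = ⊤ := by
    rw [Set.encard_eq_top_iff]
    exact Set.infinite_range_of_injective cls_e_anti.injective
  calc (⊤ : ℕ∞) = (Set.range (fun i : ℕ => cls (e i))).encard := hinf.symm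
    _ ≤ jHeight B := le_iSup (fun C : {C : Set (JClasses B) // IsChain (· ≤ ·) C} => C.1.encard)
      ⟨_, hchain⟩

theorem result : ∃ (S : Type) (_ : Semigroup S) (B : Subsemigroup S),
    jHeight S < ⊤ ∧ IsBiIdeal B ∧ jHeight B = ⊤ :=
  ⟨T, inferInstance, B, height_T, biIdeal, height_B⟩

end Pool.Agent.Results.MP_92d133_al.HeightNotInherited
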